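import Pool.Agent.H860EM.Cover

set_option autoImplicit false

/-!
# `RT²₂` is not a strong minimal cover of `EM`

For each of the three preorders on Ramsey-like statements (provability over `RCA₀`, validity in
`ω`-models, computable reducibility), `RT²₂` is not a strong minimal cover of `EM`: the statement
`RT²₂(1302)` is strictly below `RT²₂` and not below `EM`.
-/

namespace Pool.Agent.Results.MP_b4a791_lc.NotStrongMinCover

open H860EM

theorem result :
    ((GeRCA .rt c1302 ∧ ¬ GeRCA c1302 .rt ∧ ¬ GeRCA .em c1302) ∧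
      ¬ StrongMinCover GeRCA .rt .em) ∧
    ((GeOmega .rt c1302 ∧ ¬ GeOmega c1302 .rt ∧ ¬ GeOmega .em c1302) ∧
      ¬ StrongMinCover GeOmega .rt .em) ∧
    ((GeComp .rt c1302 ∧ ¬ GeComp c1302 .rt ∧ ¬ GeComp .em c1302) ∧
      ¬ StrongMinCover GeComp .rt .em) :=
  ⟨⟨witness_rca, not_strong witness_rca⟩, ⟨witness_omega, not_strong witness_omega⟩,
    ⟨witness_comp, not_strong witness_comp⟩⟩

end Pool.Agent.Results.MP_b4a791_lc.NotStrongMinCover
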